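import Pool.Agent.H717.PR.Final
import Pool.Agent.H195.PM.Conv
import Pool.Agent.H670.PM.ClosedEdge
import Pool.Agent.H190.PM.NoG
import Pool.Agent.H296.PM.Bun
import Pool.Agent.H268.PM.Small
import Pool.Agent.H791.PM.Sound
import Pool.Agent.H746.PM.SelOr
import Pool.Agent.H402.PM.SelAnd
import Pool.Agent.H224.PM.SelInt
import Pool.Agent.H876.PM.NatOr
import Pool.Agent.H314.PM.NatInt
import Pool.Agent.H75.PM.Compl
import Pool.Agent.H169.PM.Size
import Pool.Agent.H100.PM.Pchk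

/-!
# Recognition of `k`-OR-PCGs, `k`-AND-PCGs and `k`-interval-PCGs is NP-complete: assembly
-/

set_option autoImplicit false

namespace Pool.Agent.H717.PM.Final

open Pool.Agent.NPC Pool.Agent.H622R2 Pool.Agent.V11227.BT
open Pool.Agent.R39.PCG (WTree IsInterval IsOrPCG IsAndPCG IsIntervalPCG)
open Pool.Agent.H717.PM

theorem fp_conv {V : Type} {d : V → V → ℝ} (h : Pool.Agent.R39.PCG.FP d) :
    Pool.Agent.V11227.PC.FP d := by
  refine ⟨h.symm, fun x y z u => ?_⟩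
  rcases h.four x z y u with h1 | h1
  · exact le_max_of_le_left h1
  · rw [h.symm z y] at h1
    exact le_max_of_le_right h1

/-- The graph of the matrix and the graph on the labels. -/
noncomputable def iso (I : PR.Inst) : matGraph (PR.red I) ≃g PR.gr I :=
  matIso (PR.vs I) PR.adj (ddup_nodup _)

theorem red_correct {I : PR.Inst} (hg : Good I) :
    Betweenness I ↔ Pool.Agent.R39.PCG.IsPCG (matGraph (PR.red I)) := by
  obtain ⟨hedge, hnt⟩ := Pool.Agent.H670.PM.t_edge I hg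
  constructor
  · intro h
    obtain ⟨α, β, ν, τ, N, hM⟩ := Pool.Agent.H807.PR.t_marks I hg h
    obtain ⟨t, dmin, dmax, h0, h1, h2⟩ := PR.Final.yes I α β ν τ N hg hM
    obtain ⟨σ, hσ⟩ := Pool.Agent.H195.PM.t_conv _ t
    refine Pool.Agent.H195.PM.t_iso3 _ _ _ _ (iso I).symm
      ⟨σ, Set.Icc dmin dmax, ⟨Set.ordConnected_Icc, fun x hx => le_trans h0 hx.1⟩, ?_⟩
    intro u v huv
    rw [hσ, h2]
    constructor
    · intro h3
      exact h3.2
    · intro h3
      exact ⟨huv, h3⟩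
  · intro h
    obtain ⟨σ, J, hJ, h3⟩ := Pool.Agent.H195.PM.t_iso3 _ _ _ _ (iso I) h
    have hfin : Finite {w : PR.VL // w ∈ PR.vs I} := (List.finite_toSet (PR.vs I)).to_subtype
    obtain ⟨dmin, dmax, h4, h5⟩ := Pool.Agent.H670.PM.t_closed _ (PR.gr I) σ.d J hJ h3 hedge
    exact Pool.Agent.H190.PM.t_noG I hg σ.d (fp_conv σ.fp) dmin dmax h4 h5

theorem poly_pair1 : NPC.Poly (fun I : PR.Inst => (PR.red I, 1)) :=
  NPC.Poly.pair Pool.Agent.H231.PR.t_poly (NPC.Poly.const _)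

theorem hardI_or : HardI OrRec :=
  (hardPr_betweenness.trans (Pr' := fun _ => True) poly_pair1 (fun _ _ => trivial)
    (fun I hg => by
      rw [red_correct hg, ← (Pool.Agent.H195.PM.t_one _ _).1]
      exact ⟨fun h => ⟨le_rfl, h⟩, fun h => h.2⟩)).toHardI

theorem hardI_and : HardI AndRec :=
  (hardPr_betweenness.trans (Pr' := fun _ => True) poly_pair1 (fun _ _ => trivial)
    (fun I hg => by
      rw [red_correct hg, ← (Pool.Agent.H195.PM.t_one _ _).2.1]
      exact ⟨fun h => ⟨le_rfl, h⟩, fun h => h.2⟩)).toHardI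

theorem hardI_int : HardI IntRec :=
  (hardPr_betweenness.trans (Pr' := fun _ => True) poly_pair1 (fun _ _ => trivial)
    (fun I hg => by
      rw [red_correct hg, ← (Pool.Agent.H195.PM.t_one _ _).2.2]
      exact ⟨fun h => ⟨le_rfl, h⟩, fun h => h.2⟩)).toHardI

theorem compl : S_compl :=
  Pool.Agent.H75.PM.t_compl (Pool.Agent.H746.PM.t_selOr Pool.Agent.H746.PM.t_bun')
    (Pool.Agent.H402.PM.t_selAnd Pool.Agent.H746.PM.t_bun')
    (Pool.Agent.H224.PM.t_selInt Pool.Agent.H746.PM.t_bun')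
    (Pool.Agent.H876.PM.t_natOr Pool.Agent.H268.PM.t_small)
    (Pool.Agent.H876.PM.t_natAnd Pool.Agent.H268.PM.t_small)
    (Pool.Agent.H314.PM.NatInt.t_natInt Pool.Agent.H268.PM.t_small)

theorem sound : S_sound := Pool.Agent.H791.PM.t_sound Pool.Agent.H296.PM.t_bun

theorem np_or : InNPP OrRec := by
  obtain ⟨P, hP, -⟩ := Pool.Agent.H169.PMSize.t_size
  refine inNPP_of Pool.Agent.H100.PM.t_pchk.1 P fun I => ⟨fun h => ?_, ?_⟩
  · obtain ⟨c, h1, h2, h3⟩ := compl.1 I h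
    exact ⟨c, hP I c h2 h3, h1⟩
  · rintro ⟨c, -, h⟩
    exact sound.1 I c h

theorem np_and : InNPP AndRec := by
  obtain ⟨P, hP, -⟩ := Pool.Agent.H169.PMSize.t_size
  refine inNPP_of Pool.Agent.H100.PM.t_pchk.2.1 P fun I => ⟨fun h => ?_, ?_⟩
  · obtain ⟨c, h1, h2, h3⟩ := compl.2.1 I h
    exact ⟨c, hP I c h2 h3, h1⟩
  · rintro ⟨c, -, h⟩
    exact sound.2.1 I c h

theorem np_int : InNPP IntRec := by
  obtain ⟨P, -, hP⟩ := Pool.Agent.H169.PMSize.t_size
  refine inNPP_of Pool.Agent.H100.PM.t_pchk.2.2 P fun I => ⟨fun h => ?_, ?_⟩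
  · obtain ⟨c, h1, h2, h3, h4, h5⟩ := compl.2.2 I h
    exact ⟨c, hP I c h2 h3 h4 h5, h1⟩
  · rintro ⟨c, -, h⟩
    exact sound.2.2 I c h

end Pool.Agent.H717.PM.Final
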