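import Pool.Agent.H717.PM.Final
import Pool.Agent.H721.PM.NPPCG
import Pool.Agent.H546.PM.Pos

/-!
# Recognition of pairwise compatibility graphs is in NP: assembly
-/

set_option autoImplicit false

namespace Pool.Agent.H717.PM.Final

open Pool.Agent.NPC Pool.Agent.H717.PM

theorem np_pcg : InNPP Pool.Agent.H717.PR.PCGRecognition :=
  Pool.Agent.H721.PM.np_pcg compl Pool.Agent.H169.PMSize.t_size sound Pool.Agent.H100.PM.t_pchk
    fun V _ _ G h => Pool.Agent.H546.PM.t_pos V G h

end Pool.Agent.H717.PM.Final
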