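import Pool.Agent.H717.PR.Stm
import Pool.Graph.R_seed8.R39.PCG.Four
import Pool.Graph.R_seed8.NPC.Dec
import Pool.Graph.R_seed8.R544.Util

/-!
# Recognition of `k`-OR-PCGs, `k`-AND-PCGs and `k`-interval-PCGs is NP-complete: statements
-/

set_option autoImplicit false

namespace Pool.Agent.H717.PM

open Pool.Agent.NPC Pool.Agent.H622R2 Pool.Agent.V11227.BT
open Pool.Agent.R39.PCG (WTree IsInterval IsOrPCG IsAndPCG IsIntervalPCG)

/-- Recognition of `k`-OR-PCGs: the input is the adjacency matrix of a graph and `k ≥ 1`. -/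
def OrRec (I : List (List Bool) × ℕ) : Prop := 1 ≤ I.2 ∧ IsOrPCG I.2 (matGraph I.1)

/-- Recognition of `k`-AND-PCGs. -/
def AndRec (I : List (List Bool) × ℕ) : Prop := 1 ≤ I.2 ∧ IsAndPCG I.2 (matGraph I.1)

/-- Recognition of `k`-interval-PCGs. -/
def IntRec (I : List (List Bool) × ℕ) : Prop := 1 ≤ I.2 ∧ IsIntervalPCG I.2 (matGraph I.1)

/-! ### Hardness -/

/-- A positive tree is a nonnegative tree. -/
def S_conv : Prop := ∀ (V : Type) [Nontrivial V] (t : Pool.Agent.TH667.PCG.LeafTree V),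
  ∃ τ : WTree V, ∀ u v, τ.d u v = t.dist u v

/-- The soundness of the reduction for an arbitrary function with the four-point condition. -/
def S_noG : Prop := ∀ I : PR.Inst, Good I →
  ∀ d : {w : PR.VL // w ∈ PR.vs I} → {w : PR.VL // w ∈ PR.vs I} → ℝ,
  Pool.Agent.V11227.PC.FP d → ∀ dmin dmax : ℝ, dmin ≤ dmax →
  (∀ w z, (PR.gr I).Adj w z ↔ w ≠ z ∧ dmin ≤ d w z ∧ d w z ≤ dmax) → Betweenness I

/-- A function with the four-point condition and an interval: the same graph is given by the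
smallest and the greatest distance of adjacent vertices. -/
def S_closed : Prop := ∀ (V : Type) [Finite V] (G : SimpleGraph V) (d : V → V → ℝ) (I : Set ℝ),
  IsInterval I → (∀ u v, u ≠ v → (G.Adj u v ↔ d u v ∈ I)) → (∃ u v, G.Adj u v) →
  ∃ dmin dmax : ℝ, dmin ≤ dmax ∧ ∀ u v, G.Adj u v ↔ u ≠ v ∧ dmin ≤ d u v ∧ d u v ≤ dmax

/-- The three problems with `k = 1`. -/
def S_one : Prop := ∀ (V : Type) (G : SimpleGraph V),
  (IsOrPCG 1 G ↔ Pool.Agent.R39.PCG.IsPCG G) ∧ (IsAndPCG 1 G ↔ Pool.Agent.R39.PCG.IsPCG G) ∧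
  (IsIntervalPCG 1 G ↔ Pool.Agent.R39.PCG.IsPCG G)

/-- invariance under isomorphisms -/
def S_iso3 : Prop := ∀ (V V' : Type) (G : SimpleGraph V) (G' : SimpleGraph V'), (G ≃g G') →
  Pool.Agent.R39.PCG.IsPCG G → Pool.Agent.R39.PCG.IsPCG G'

/-- The instances of the reduction have an edge and two vertices. -/
def S_edge : Prop := ∀ I : PR.Inst, Good I → (∃ u v, (PR.gr I).Adj u v) ∧
  Nontrivial {w : PR.VL // w ∈ PR.vs I}

/-! ### Membership in NP -/

/-- The four-point condition for the restriction of a function to the numbers less than `n`, with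
symmetry, vanishing on the diagonal and nonnegativity. -/
structure TM (n : ℕ) (D : ℕ → ℕ → ℝ) : Prop where
  symm : ∀ x < n, ∀ y < n, D x y = D y x
  diag : ∀ x < n, D x x = 0
  nonneg : ∀ x < n, ∀ y < n, 0 ≤ D x y
  four : ∀ x < n, ∀ y < n, ∀ z < n, ∀ w < n,
    D x y + D z w ≤ D x z + D y w ∨ D x y + D z w ≤ D x w + D y z

/-- **Buneman's theorem** (for pseudometrics, with edges of length zero): the four-point condition
characterises the distances of the leaves of weighted trees. -/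
def S_bun : Prop := ∀ (n : ℕ), n ≠ 1 → ∀ D : ℕ → ℕ → ℝ, TM n D →
  ∃ τ : WTree (Fin n), ∀ u v : Fin n, τ.d u v = D u v

/-- the easy converse -/
def S_bun' : Prop := ∀ (n : ℕ) (τ : WTree (Fin n)), n ≠ 1 ∧
  ∃ D : ℕ → ℕ → ℝ, TM n D ∧ ∀ u v : Fin n, τ.d u v = D u v

/-- **Small integer points with prescribed signs.** -/
def S_small : Prop := ∀ (ι : Type) [Fintype ι] (C : ℕ) (F : Finset (ι → ℤ)),
  (∀ f ∈ F, ∀ j, |f j| ≤ (C : ℤ)) → ∀ x : ι → ℝ, ∃ y : ι → ℤ,
  (∀ j, |y j| ≤ (((Fintype.card ι).factorial * (C + 1) ^ Fintype.card ι : ℕ) : ℤ)) ∧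
  (∀ j, SignType.sign (y j) = SignType.sign (x j)) ∧
  ∀ f ∈ F, SignType.sign (∑ j, f j * y j) = SignType.sign (∑ j, (f j : ℝ) * x j)

/-- the entry of a matrix of natural numbers -/
def ent (M : List (List ℕ)) (i j : ℕ) : ℕ := (M.getD i []).getD j 0

/-- A matrix is the distance matrix of the leaves of a tree. -/
def okD (n : ℕ) (M : List (List ℕ)) : Bool :=
  (List.range n).all fun x => decide (ent M x x = 0) && ((List.range n).all fun y =>
    decide (ent M x y = ent M y x) && ((List.range n).all fun z => (List.range n).all fun w =>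
      decide (ent M x y + ent M z w ≤ ent M x z + ent M y w) ||
      decide (ent M x y + ent M z w ≤ ent M x w + ent M y z)))

/-- Certificates: distance matrices with intervals. -/
abbrev Crt := List (List (List ℕ) × (ℕ × ℕ))

/-- the distance is in the interval -/
def inI (e : List (List ℕ) × (ℕ × ℕ)) (x y : ℕ) : Bool :=
  decide (e.2.1 ≤ ent e.1 x y) && decide (ent e.1 x y ≤ e.2.2)

/-- adjacency in the input -/
def adjM (M : List (List Bool)) (x y : ℕ) : Bool := entry M x y || entry M y x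

/-- the verifier for the OR problem -/
def chkOr (p : (List (List Bool) × ℕ) × Crt) : Bool :=
  (decide (1 ≤ p.1.2) && !decide (p.1.1.length = 1)) && (!decide (p.2.length = 0) &&
  (decide (p.2.length ≤ p.1.2) && ((p.2.all fun e => okD p.1.1.length e.1) &&
  (List.range p.1.1.length).all fun x => (List.range p.1.1.length).all fun y =>
    decide (x = y) || decide (adjM p.1.1 x y = (p.2.any fun e => inI e x y)))))

/-- the verifier for the AND problem -/
def chkAnd (p : (List (List Bool) × ℕ) × Crt) : Bool :=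
  (decide (1 ≤ p.1.2) && !decide (p.1.1.length = 1)) && (!decide (p.2.length = 0) &&
  (decide (p.2.length ≤ p.1.2) && ((p.2.all fun e => okD p.1.1.length e.1) &&
  (List.range p.1.1.length).all fun x => (List.range p.1.1.length).all fun y =>
    decide (x = y) || decide (adjM p.1.1 x y = (p.2.all fun e => inI e x y)))))

/-- the verifier for the interval problem; the certificate is one matrix and a list of
intervals, which have to be disjoint -/
def chkInt (p : (List (List Bool) × ℕ) × (List (List ℕ) × List (ℕ × ℕ))) : Bool :=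
  (decide (1 ≤ p.1.2) && !decide (p.1.1.length = 1)) && (okD p.1.1.length p.2.1 &&
  (decide (p.2.2.length ≤ p.1.2) &&
  (((List.range p.2.2.length).all fun i => (List.range p.2.2.length).all fun j => decide (i = j) ||
    (decide ((p.2.2.getD i (0, 0)).2 < (p.2.2.getD j (0, 0)).1) ||
      decide ((p.2.2.getD j (0, 0)).2 < (p.2.2.getD i (0, 0)).1))) &&
  (List.range p.1.1.length).all fun x => (List.range p.1.1.length).all fun y =>
    decide (x = y) || decide (adjM p.1.1 x y = (p.2.2.any fun e => inI (p.2.1, e) x y)))))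

/-- Soundness: a certificate gives trees. -/
def S_sound : Prop := (∀ I c, chkOr (I, c) = true → OrRec I) ∧
  (∀ I c, chkAnd (I, c) = true → AndRec I) ∧ (∀ I c, chkInt (I, c) = true → IntRec I)

/-- the bound for the numbers in the certificates: `n` vertices, `k` trees or intervals -/
def bnd (n k : ℕ) : ℕ := (k * (n * n + 2)).factorial * 3 ^ (k * (n * n + 2))

/-- Real distance functions and intervals `[lo, hi]` which give an OR representation. -/
def RealOr (M : List (List Bool)) (k : ℕ) (D : ℕ → ℕ → ℕ → ℝ) (lo hi : ℕ → ℝ) : Prop :=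
  (∀ i < k, TM M.length (D i)) ∧ (∀ i < k, 0 ≤ lo i ∧ 0 ≤ hi i) ∧
  ∀ x < M.length, ∀ y < M.length, x ≠ y →
    (adjM M x y = true ↔ ∃ i < k, lo i ≤ D i x y ∧ D i x y ≤ hi i)

/-- the same for AND -/
def RealAnd (M : List (List Bool)) (k : ℕ) (D : ℕ → ℕ → ℕ → ℝ) (lo hi : ℕ → ℝ) : Prop :=
  (∀ i < k, TM M.length (D i)) ∧ (∀ i < k, 0 ≤ lo i ∧ 0 ≤ hi i) ∧
  ∀ x < M.length, ∀ y < M.length, x ≠ y →
    (adjM M x y = true ↔ ∀ i < k, lo i ≤ D i x y ∧ D i x y ≤ hi i)

/-- the same for intervals -/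
def RealInt (M : List (List Bool)) (k : ℕ) (D : ℕ → ℕ → ℝ) (lo hi : ℕ → ℝ) : Prop :=
  TM M.length D ∧ (∀ i < k, 0 ≤ lo i ∧ 0 ≤ hi i) ∧
  (∀ i < k, ∀ j < k, i ≠ j → hi i < lo j ∨ hi j < lo i) ∧
  ∀ x < M.length, ∀ y < M.length, x ≠ y →
    (adjM M x y = true ↔ ∃ i < k, lo i ≤ D x y ∧ D x y ≤ hi i)

/-- From trees to real data with few trees (closed intervals; `hi i < lo i` is allowed and gives
the empty interval). -/
def S_selOr : Prop := ∀ I : List (List Bool) × ℕ, OrRec I → I.1.length ≠ 1 ∧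
  ∃ k, 1 ≤ k ∧ k ≤ I.2 ∧ k ≤ I.1.length * I.1.length + 1 ∧ ∃ D lo hi, RealOr I.1 k D lo hi

def S_selAnd : Prop := ∀ I : List (List Bool) × ℕ, AndRec I → I.1.length ≠ 1 ∧
  ∃ k, 1 ≤ k ∧ k ≤ I.2 ∧ k ≤ I.1.length * I.1.length + 1 ∧ ∃ D lo hi, RealAnd I.1 k D lo hi

def S_selInt : Prop := ∀ I : List (List Bool) × ℕ, IntRec I → I.1.length ≠ 1 ∧
  ∃ k, k ≤ I.2 ∧ k ≤ I.1.length * I.1.length + 1 ∧ ∃ D lo hi, RealInt I.1 k D lo hi

/-- From real data to small natural numbers. -/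
def S_natOr : Prop := ∀ (M : List (List Bool)) (k : ℕ) (D : ℕ → ℕ → ℕ → ℝ) (lo hi : ℕ → ℝ),
  RealOr M k D lo hi → ∃ (D' : ℕ → ℕ → ℕ → ℕ) (lo' hi' : ℕ → ℕ),
    RealOr M k (fun i x y => (D' i x y : ℝ)) (fun i => (lo' i : ℝ)) (fun i => (hi' i : ℝ)) ∧
    ∀ i, lo' i ≤ bnd M.length k ∧ hi' i ≤ bnd M.length k ∧ ∀ x y, D' i x y ≤ bnd M.length k

def S_natAnd : Prop := ∀ (M : List (List Bool)) (k : ℕ) (D : ℕ → ℕ → ℕ → ℝ) (lo hi : ℕ → ℝ),
  RealAnd M k D lo hi → ∃ (D' : ℕ → ℕ → ℕ → ℕ) (lo' hi' : ℕ → ℕ),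
    RealAnd M k (fun i x y => (D' i x y : ℝ)) (fun i => (lo' i : ℝ)) (fun i => (hi' i : ℝ)) ∧
    ∀ i, lo' i ≤ bnd M.length k ∧ hi' i ≤ bnd M.length k ∧ ∀ x y, D' i x y ≤ bnd M.length k

def S_natInt : Prop := ∀ (M : List (List Bool)) (k : ℕ) (D : ℕ → ℕ → ℝ) (lo hi : ℕ → ℝ),
  RealInt M k D lo hi → ∃ (D' : ℕ → ℕ → ℕ) (lo' hi' : ℕ → ℕ),
    RealInt M k (fun x y => (D' x y : ℝ)) (fun i => (lo' i : ℝ)) (fun i => (hi' i : ℝ)) ∧
    (∀ i, lo' i ≤ bnd M.length (k + 1) ∧ hi' i ≤ bnd M.length (k + 1)) ∧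
    ∀ x y, D' x y ≤ bnd M.length (k + 1)

/-- Completeness: the certificates, as lists, with entries bounded by `bnd`. -/
def S_compl : Prop :=
  (∀ I, OrRec I → ∃ c : Crt, chkOr (I, c) = true ∧ c.length ≤ I.1.length * I.1.length + 1 ∧
    ∀ e ∈ c, e.1.length = I.1.length ∧ (∀ l ∈ e.1, l.length = I.1.length ∧
      ∀ a ∈ l, a ≤ bnd I.1.length (I.1.length * I.1.length + 1)) ∧
      e.2.1 ≤ bnd I.1.length (I.1.length * I.1.length + 1) ∧
      e.2.2 ≤ bnd I.1.length (I.1.length * I.1.length + 1)) ∧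
  (∀ I, AndRec I → ∃ c : Crt, chkAnd (I, c) = true ∧ c.length ≤ I.1.length * I.1.length + 1 ∧
    ∀ e ∈ c, e.1.length = I.1.length ∧ (∀ l ∈ e.1, l.length = I.1.length ∧
      ∀ a ∈ l, a ≤ bnd I.1.length (I.1.length * I.1.length + 1)) ∧
      e.2.1 ≤ bnd I.1.length (I.1.length * I.1.length + 1) ∧
      e.2.2 ≤ bnd I.1.length (I.1.length * I.1.length + 1)) ∧
  (∀ I, IntRec I → ∃ c : List (List ℕ) × List (ℕ × ℕ), chkInt (I, c) = true ∧
    c.2.length ≤ I.1.length * I.1.length + 1 ∧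
    c.1.length = I.1.length ∧ (∀ l ∈ c.1, l.length = I.1.length ∧
      ∀ a ∈ l, a ≤ bnd I.1.length (I.1.length * I.1.length + 2)) ∧
    ∀ e ∈ c.2, e.1 ≤ bnd I.1.length (I.1.length * I.1.length + 2) ∧
      e.2 ≤ bnd I.1.length (I.1.length * I.1.length + 2))

/-- the size of the certificates is polynomially bounded -/
def S_size : Prop := ∃ P : Polynomial ℕ,
  (∀ (I : List (List Bool) × ℕ) (c : Crt), c.length ≤ I.1.length * I.1.length + 1 →
    (∀ e ∈ c, e.1.length = I.1.length ∧ (∀ l ∈ e.1, l.length = I.1.length ∧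
      ∀ a ∈ l, a ≤ bnd I.1.length (I.1.length * I.1.length + 1)) ∧
      e.2.1 ≤ bnd I.1.length (I.1.length * I.1.length + 1) ∧
      e.2.2 ≤ bnd I.1.length (I.1.length * I.1.length + 1)) → sz c ≤ P.eval (sz I)) ∧
  (∀ (I : List (List Bool) × ℕ) (c : List (List ℕ) × List (ℕ × ℕ)),
    c.2.length ≤ I.1.length * I.1.length + 1 →
    c.1.length = I.1.length → (∀ l ∈ c.1, l.length = I.1.length ∧
      ∀ a ∈ l, a ≤ bnd I.1.length (I.1.length * I.1.length + 2)) →
    (∀ e ∈ c.2, e.1 ≤ bnd I.1.length (I.1.length * I.1.length + 2) ∧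
      e.2 ≤ bnd I.1.length (I.1.length * I.1.length + 2)) → sz c ≤ P.eval (sz I))

/-- the verifiers are computable in polynomial time -/
def S_pchk : Prop := NPC.Poly chkOr ∧ NPC.Poly chkAnd ∧ NPC.Poly chkInt

end Pool.Agent.H717.PM
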